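import Pool.Agent.Helper7.LC.DE

/-!
# OL, part IE: derivations of `K` with prescribed values at two linearly disjoint points
-/

set_option autoImplicit false
set_option linter.unusedSectionVars false

open TensorProduct

namespace Pool.Agent.Helper82.OLB

open Pool.Agent.Helper58.SH

variable {R : Type} [CommRing R] [Algebra ℂ R]

theorem inj_mul {K : Type} [Field K] [Algebra ℂ K] {x z : R →ₐ[ℂ] K}
    (hdisj : ∀ (m : ℕ) (r : Fin m → R), LinearIndependent ℂ r → ∀ c : Fin m → R,
      ∑ i, x (c i) * z (r i) = 0 → ∀ i, c i = 0) :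
    Function.Injective (Algebra.TensorProduct.productMap x z) := by
  rw [injective_iff_map_eq_zero]
  intro t ht
  classical
  obtain ⟨c, hc⟩ := TensorProduct.eq_repr_basis_right (Module.Basis.ofVectorSpace ℂ R) t
  set ℬ := Module.Basis.ofVectorSpace ℂ R with hℬ
  let e : c.support ≃ Fin c.support.card := c.support.equivFin
  have h1 : LinearIndependent ℂ (fun j : Fin c.support.card => ℬ (e.symm j).1) :=
    ℬ.linearIndependent.comp (fun j => (e.symm j).1)
      (fun a b h => e.symm.injective (Subtype.ext h))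
  have h2 : ∑ j : Fin c.support.card, x (c (e.symm j).1) * z (ℬ (e.symm j).1) = 0 := by
    have h3 : ∑ j : Fin c.support.card, x (c (e.symm j).1) * z (ℬ (e.symm j).1) =
        ∑ i : c.support, x (c i.1) * z (ℬ i.1) :=
      e.symm.sum_comp (fun i : c.support => x (c i.1) * z (ℬ i.1))
    rw [h3, Finset.sum_coe_sort c.support (fun i => x (c i) * z (ℬ i))]
    rw [← ht, ← hc, Finsupp.sum, map_sum]
    refine Finset.sum_congr rfl fun i _ => ?_
    rw [Algebra.TensorProduct.productMap_apply_tmul]
  have h4 := hdisj _ _ h1 _ h2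
  rw [← hc, Finsupp.sum]
  refine Finset.sum_eq_zero fun i hi => ?_
  have h5 := h4 (e ⟨i, hi⟩)
  simp only [Equiv.symm_apply_apply] at h5
  rw [h5, TensorProduct.zero_tmul]

/-- IE -/
theorem exists_der_pair [IsDomain R] {K : Type} [Field K] [Algebra ℂ K] {x z : R →ₐ[ℂ] K}
    (hdisj : ∀ (m : ℕ) (r : Fin m → R), LinearIndependent ℂ r → ∀ c : Fin m → R,
      ∑ i, x (c i) * z (r i) = 0 → ∀ i, c i = 0) {δ : R →ₗ[ℂ] K} (hδ : IsDer z δ) :
    ∃ D : Derivation ℂ K K, (∀ r, D (x r) = 0) ∧ ∀ r, D (z r) = δ r := by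
  have hinj := inj_mul hdisj
  have : IsDomain (R ⊗[ℂ] R) :=
    Function.Injective.isDomain (Algebra.TensorProduct.productMap x z).toRingHom hinj
  let δ' : R ⊗[ℂ] R →ₗ[ℂ] K := (LinearMap.mul' ℂ K).comp (TensorProduct.map x.toLinearMap δ)
  have hδ't : ∀ a b, δ' (a ⊗ₜ b) = x a * δ b := fun a b => by
    simp [δ']
  have hder : IsDer (Algebra.TensorProduct.productMap x z) δ' := by
    refine ⟨fun s t => ?_⟩
    induction s using TensorProduct.induction_on with
    | zero => simp
    | add s₁ s₂ h₁ h₂ => rw [add_mul, map_add, h₁, h₂, map_add, map_add]; ring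
    | tmul a b =>
      induction t using TensorProduct.induction_on with
      | zero => simp
      | add t₁ t₂ h₁ h₂ => rw [mul_add, map_add, h₁, h₂, map_add, map_add]; ring
      | tmul a' b' =>
        rw [Algebra.TensorProduct.tmul_mul_tmul, hδ't, hδ't, hδ't, hδ.mul,
          Algebra.TensorProduct.productMap_apply_tmul, Algebra.TensorProduct.productMap_apply_tmul,
          map_mul]
        ring
  obtain ⟨D, hD⟩ := Pool.Agent.Helper7.LC.exists_der hinj δ' hder
  have h10 : δ 1 = 0 := by
    have h1 := hδ.mul 1 1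
    rw [mul_one, map_one z, one_mul] at h1
    linear_combination -h1
  refine ⟨D, fun r => ?_, fun r => ?_⟩
  · have h := hD (r ⊗ₜ 1)
    rw [Algebra.TensorProduct.productMap_apply_tmul, map_one z, mul_one, hδ't, h10, mul_zero] at h
    exact h
  · have h := hD (1 ⊗ₜ r)
    rw [Algebra.TensorProduct.productMap_apply_tmul, map_one x, one_mul, hδ't, map_one x, one_mul] at h
    exact h

end Pool.Agent.Helper82.OLB
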